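import Mathlib

/-!
# Ideals on `ℕ` and chains of ideals: definitions
-/

set_option autoImplicit false

namespace Pool.Agent.U86.MI

/-- An ideal on `ℕ`: a family of subsets of `ℕ` that does not contain `ℕ` and is closed under finite
unions (the empty union `∅` included) and under taking subsets. -/
structure IsIdeal (J : Set (Set ℕ)) : Prop where
  empty_mem : ∅ ∈ J
  univ_notMem : Set.univ ∉ J
  union_mem : ∀ B ∈ J, ∀ C ∈ J, B ∪ C ∈ J
  subset_mem : ∀ B ∈ J, ∀ C, C ⊆ B → C ∈ J

/-- A maximal ideal on `ℕ`: an ideal not properly contained in another ideal. -/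
def IsMaximalIdeal (I : Set (Set ℕ)) : Prop :=
  IsIdeal I ∧ ∀ J, IsIdeal J → ¬ I ⊂ J

/-- There is a strictly increasing sequence `J α` (`α < γ`) of ideals on `ℕ` whose union is a
maximal ideal on `ℕ`. -/
def HasChain (γ : Ordinal.{0}) : Prop :=
  ∃ J : Ordinal.{0} → Set (Set ℕ), (∀ α < γ, IsIdeal (J α)) ∧
    (∀ α β, α < β → β < γ → J α ⊂ J β) ∧ IsMaximalIdeal {X | ∃ α < γ, X ∈ J α}

end Pool.Agent.U86.MI
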