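import Pool.Agent.U86.MI.Core
import Pool.Agent.U86.MI.Defs

/-!
# Ultrafilters on `ℕ` as unions of strictly increasing chains of filters: the chain
-/

set_option autoImplicit false

namespace Pool.Agent.U86.MI

open Set

universe u

section

variable {ι : Type u} [LinearOrder ι] {A : ι → Set ℕ} {K : Set (Set ℕ)}

/-- `X` is decided by the conditions with support below `α`. -/
def Supp (A : ι → Set ℕ) (K : Set (Set ℕ)) (α : ι) (X : Set ℕ) : Prop :=
  ∀ σ : Finset (ι × Bool), Cons σ → (∀ p ∈ σ, p.1 < α) →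
    ∃ τ, σ ⊆ τ ∧ Cons τ ∧ (∀ p ∈ τ, p.1 < α) ∧ Dec A K τ X

theorem cons_union [DecidableEq (ι × Bool)] {α : ι} {σ τ : Finset (ι × Bool)} (hσ : Cons σ)
    (hτ : Cons τ) (hτα : ∀ p ∈ τ, p.1 < α) (h : ∀ p ∈ σ, p.1 < α → p ∈ τ) : Cons (τ ∪ σ) := by
  intro i h1 h2
  rcases Finset.mem_union.1 h1 with h1 | h1 <;> rcases Finset.mem_union.1 h2 with h2 | h2
  · exact hτ i h1 h2
  · exact hτ i h1 (h _ h2 (hτα (i, true) h1))
  · exact hτ i (h _ h1 (hτα (i, false) h2)) h2
  · exact hσ i h1 h2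

theorem Supp.mono {α β : ι} (hαβ : α ≤ β) {X : Set ℕ} (h : Supp A K α X) : Supp A K β X := by
  classical
  intro σ hσ hσβ
  obtain ⟨τ, h1, h2, h3, h4⟩ := h (σ.filter fun p => p.1 < α) (hσ.mono (Finset.filter_subset _ _))
    (fun p hp => (Finset.mem_filter.1 hp).2)
  refine ⟨τ ∪ σ, Finset.subset_union_right, cons_union hσ h2 h3 (fun p hp hpα =>
    h1 (Finset.mem_filter.2 ⟨hp, hpα⟩)), ?_, h4.mono Finset.subset_union_left⟩
  intro p hp
  rcases Finset.mem_union.1 hp with hp | hp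
  · exact (h3 p hp).trans_le hαβ
  · exact hσβ p hp

theorem Supp.inter (hK : Big A K) {α : ι} {X Y : Set ℕ} (hX : Supp A K α X) (hY : Supp A K α Y) :
    Supp A K α (X ∩ Y) := by
  intro σ hσ hσα
  obtain ⟨τ, h1, h2, h3, h4⟩ := hX σ hσ hσα
  obtain ⟨ρ, g1, g2, g3, g4⟩ := hY τ h2 h3
  refine ⟨ρ, h1.trans g1, g2, g3, ?_⟩
  rcases h4.mono g1 with ⟨B, hB, hBX⟩ | ⟨B, hB, hBX⟩
  · rcases g4 with ⟨C, hC, hCY⟩ | ⟨C, hC, hCY⟩
    · refine Or.inl ⟨B ∩ C, hK.inter B hB C hC, ?_⟩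
      rintro n ⟨⟨hn1, hn2⟩, hn3⟩
      exact ⟨hBX ⟨hn1, hn3⟩, hCY ⟨hn2, hn3⟩⟩
    · refine Or.inr ⟨C, hC, fun n hn => ?_⟩
      intro hn'
      exact hCY hn hn'.2
  · refine Or.inr ⟨B, hB, fun n hn => ?_⟩
    intro hn'
    exact hBX hn hn'.1

theorem exists_supp (hb : ∀ S : Set ι, S.Countable → ∃ b, ∀ s ∈ S, s < b) (hA : Indep A)
    (hK : MaxBig A K) (X : Set ℕ) : ∃ α, Supp A K α X := by
  classical
  obtain ⟨T, hTc, hT1, hT2⟩ := hK.exists_countable hA X
  obtain ⟨b, hb⟩ := hb (⋃ τ ∈ T, {i | ∃ p ∈ τ, p.1 = i}) (by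
    refine hTc.biUnion fun τ _ => ?_
    refine Set.Finite.countable ?_
    refine (τ.finite_toSet.image Prod.fst).subset ?_
    rintro i ⟨p, hp, rfl⟩
    exact ⟨p, hp, rfl⟩)
  refine ⟨b, fun σ hσ hσb => ?_⟩
  obtain ⟨τ, hτ, hne⟩ := hT2 σ hσ
  refine ⟨σ ∪ τ, Finset.subset_union_left, ?_, ?_, (hT1 τ hτ).mono Finset.subset_union_right⟩
  · refine cons_of_cell (A := A) ?_
    rw [cell_union]
    exact hne
  · intro p hp
    rcases Finset.mem_union.1 hp with hp | hp
    · exact hσb p hp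
    · exact hb p.1 (Set.mem_biUnion hτ ⟨p, hp, rfl⟩)

/-- the value of the `α`-th set or its complement -/
def side (A : ι → Set ℕ) (α : ι) (b : Bool) : Set ℕ := {n | n ∈ A α ↔ b = true}

omit [LinearOrder ι] in
theorem side_compl (A : ι → Set ℕ) (α : ι) (b : Bool) : (side A α b)ᶜ = side A α (!b) := by
  ext n
  cases b <;> simp [side]

theorem supp_side (hK : Big A K) {α β : ι} (hαβ : α < β) (b : Bool) : Supp A K β (side A α b) := by
  classical
  intro σ hσ hσβ
  have key : ∀ (τ : Finset (ι × Bool)) (c : Bool), (α, c) ∈ τ → Dec A K τ (side A α b) := by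
    intro τ c hc
    have hsub : Set.univ ∩ cell A τ ⊆ side A α c := by
      rintro n ⟨-, hn⟩
      exact hn _ hc
    by_cases hcb : c = b
    · exact Or.inl ⟨_, hK.univ, hcb ▸ hsub⟩
    · refine Or.inr ⟨_, hK.univ, ?_⟩
      rw [side_compl]
      have : c = !b := by
        cases b <;> cases c <;> simp_all
      exact this ▸ hsub
  by_cases h1 : ∃ c, (α, c) ∈ σ
  · obtain ⟨c, hc⟩ := h1
    exact ⟨σ, subset_rfl, hσ, hσβ, key σ c hc⟩
  · push Not at h1
    refine ⟨insert (α, true) σ, Finset.subset_insert _ _, ?_, ?_,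
      key _ true (Finset.mem_insert_self _ _)⟩
    · intro i hi1 hi2
      rcases Finset.mem_insert.1 hi2 with h | h
      · simp at h
      · rcases Finset.mem_insert.1 hi1 with h' | h'
        · simp only [Prod.mk.injEq, and_true] at h'
          subst h'
          exact h1 _ h
        · exact hσ i h' h
    · intro p hp
      rcases Finset.mem_insert.1 hp with h | h
      · rw [h]
        exact hαβ
      · exact hσβ p h

/-- A set with support below `α` that is not in the dual ideal of `K` is not almost contained in a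
side of `α`. -/
theorem side_indep (hK : MaxBig A K) {α : ι} {C : Set ℕ} (hC : Supp A K α C)
    (hC' : Cᶜ ∉ K) (b : Bool) : side A α b ∪ Cᶜ ∉ K := by
  classical
  intro hmem
  -- some condition below `α` forces `C`
  have h1 : ∃ τ : Finset (ι × Bool), Cons τ ∧ (∀ p ∈ τ, p.1 < α) ∧ Forces A K τ C := by
    by_contra hcon
    push Not at hcon
    apply hC'
    refine hK.mem_of _ fun B hB ρ hρ => ?_
    obtain ⟨τ, h1, h2, h3, h4⟩ := hC (ρ.filter fun p => p.1 < α)
      (hρ.mono (Finset.filter_subset _ _)) (fun p hp => (Finset.mem_filter.1 hp).2)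
    rcases h4 with h4 | ⟨D, hD, hDC⟩
    · exact absurd h4 (hcon τ h2 h3)
    · have hcons : Cons (τ ∪ ρ) := cons_union hρ h2 h3 (fun p hp hpα =>
        h1 (Finset.mem_filter.2 ⟨hp, hpα⟩))
      obtain ⟨n, ⟨hn1, hn2⟩, hn3⟩ := hK.meets (B ∩ D) (hK.inter B hB D hD) _ hcons
      rw [cell_union] at hn3
      exact ⟨n, ⟨hDC ⟨hn2, hn3.1⟩, hn1⟩, hn3.2⟩
  obtain ⟨τ, h2, h3, D, hD, hDC⟩ := h1
  have hcons : Cons (insert (α, !b) τ) := by
    intro i hi1 hi2
    rcases Finset.mem_insert.1 hi1 with h | h <;> rcases Finset.mem_insert.1 hi2 with h' | h'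
    · simp only [Prod.mk.injEq] at h h'
      rw [← h.2] at h'
      simp at h'
    · simp only [Prod.mk.injEq] at h
      have := h3 _ h'
      rw [h.1] at this
      exact lt_irrefl _ this
    · simp only [Prod.mk.injEq] at h'
      have := h3 _ h
      rw [h'.1] at this
      exact lt_irrefl _ this
    · exact h2 i h h'
  obtain ⟨n, ⟨hn1, hn2⟩, hn3⟩ := hK.meets _ (hK.inter _ hmem D hD) _ hcons
  have hn4 : n ∈ C := hDC ⟨hn2, cell_anti (Finset.subset_insert _ _) hn3⟩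
  rcases hn1 with hn1 | hn1
  · have hn5 : n ∈ side A α (!b) := hn3 _ (Finset.mem_insert_self _ _)
    rw [← side_compl] at hn5
    exact hn5 hn1
  · exact hn1 hn4

/-- **Chains of ideals.** -/
theorem exists_chain (r : ι → ℝ) (hr : Function.Injective r)
    (hb : ∀ S : Set ι, S.Countable → ∃ b, ∀ s ∈ S, s < b) :
    ∃ J : ι → Set (Set ℕ), (∀ α, IsIdeal (J α)) ∧ (∀ α β, α < β → J α ⊂ J β) ∧
      IsMaximalIdeal {X | ∃ α, X ∈ J α} := by
  classical
  obtain ⟨A, hA⟩ := exists_indep r hr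
  obtain ⟨K, hK0, hKmax⟩ := exists_maximal_big (A := A) hA
  have hK : MaxBig A K := ⟨hK0, hKmax⟩
  -- an ultrafilter extending `K`
  let F : Filter ℕ :=
    { sets := K
      univ_sets := hK.univ
      sets_of_superset := fun {B C} hB hBC => hK.mono B hB C hBC
      inter_sets := fun {B C} hB hC => hK.inter B hB C hC }
  have hF : ∀ B, B ∈ F ↔ B ∈ K := fun B => Iff.rfl
  have hcons0 : Cons (∅ : Finset (ι × Bool)) := fun i h => absurd h (Finset.notMem_empty _)
  have : F.NeBot := by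
    refine ⟨fun h => ?_⟩
    have h1 : (∅ : Set ℕ) ∈ F := h ▸ Filter.mem_bot
    obtain ⟨n, hn, -⟩ := hK.meets ∅ h1 ∅ hcons0
    exact hn
  let U : Ultrafilter ℕ := Ultrafilter.of F
  have hKU : ∀ B ∈ K, B ∈ U := fun B hB => Ultrafilter.of_le F hB
  have hnK : ∀ C ∈ U, Cᶜ ∉ K := by
    intro C hC h
    exact Ultrafilter.compl_notMem_iff.2 hC (hKU _ h)
  let J : ι → Set (Set ℕ) := fun α => {X | ∃ C ∈ U, Supp A K α C ∧ Xᶜ ∪ Cᶜ ∈ K}
  have hJU : ∀ α X, X ∈ J α → Xᶜ ∈ U := by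
    rintro α X ⟨C, hC, -, hXC⟩
    have h1 : (Xᶜ ∪ Cᶜ) ∩ C ∈ U := Filter.inter_mem (hKU _ hXC) hC
    refine Filter.mem_of_superset h1 ?_
    rintro n ⟨hn1 | hn1, hn2⟩
    · exact hn1
    · exact absurd hn2 hn1
  have hideal : ∀ α, IsIdeal (J α) := by
    intro α
    refine ⟨?_, ?_, ?_, ?_⟩
    · refine ⟨Set.univ, Filter.univ_mem, ?_, ?_⟩
      · intro σ hσ hσα
        exact ⟨σ, subset_rfl, hσ, hσα, Or.inl ⟨Set.univ, hK.univ, Set.subset_univ _⟩⟩
      · simpa using hK.univ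
    · intro h
      have := hJU α _ h
      rw [Set.compl_univ] at this
      exact Ultrafilter.empty_notMem this
    · rintro X ⟨C, hC, hCs, hXC⟩ Y ⟨D, hD, hDs, hYD⟩
      refine ⟨C ∩ D, Filter.inter_mem hC hD, hCs.inter hK.toBig hDs, ?_⟩
      refine hK.mono _ (hK.inter _ hXC _ hYD) _ ?_
      rintro n ⟨hn1, hn2⟩
      simp only [mem_union, mem_compl_iff, mem_inter_iff] at hn1 hn2 ⊢
      tauto
    · rintro X ⟨C, hC, hCs, hXC⟩ Y hYX
      refine ⟨C, hC, hCs, hK.mono _ hXC _ ?_⟩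
      exact Set.union_subset_union_left _ (Set.compl_subset_compl.2 hYX)
  refine ⟨J, hideal, ?_, ?_⟩
  · intro α β hαβ
    refine ⟨?_, ?_⟩
    · rintro X ⟨C, hC, hCs, hXC⟩
      exact ⟨C, hC, hCs.mono hαβ.le, hXC⟩
    · intro hsub
      obtain ⟨b, hbU⟩ : ∃ b, side A α b ∈ U := by
        rcases Ultrafilter.mem_or_compl_mem U (side A α true) with h | h
        · exact ⟨_, h⟩
        · rw [side_compl] at h
          exact ⟨_, h⟩
      have h1 : (side A α b)ᶜ ∈ J β := by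
        refine ⟨side A α b, hbU, supp_side hK.toBig hαβ b, ?_⟩
        rw [compl_compl, Set.union_compl_self]
        exact hK.univ
      obtain ⟨C, hC, hCs, hXC⟩ := hsub h1
      rw [compl_compl] at hXC
      exact side_indep hK hCs (hnK C hC) b hXC
  · have hne : Nonempty ι := by
      obtain ⟨b, -⟩ := hb ∅ Set.countable_empty
      exact ⟨b⟩
    have hU : {X | ∃ α, X ∈ J α} = {X | Xᶜ ∈ U} := by
      ext X
      constructor
      · rintro ⟨α, h⟩
        exact hJU α X h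
      · intro h
        obtain ⟨α, hα⟩ := exists_supp hb hA hK Xᶜ
        refine ⟨α, Xᶜ, h, hα, ?_⟩
        rw [Set.union_compl_self]
        exact hK.univ
    rw [hU]
    refine ⟨⟨?_, ?_, ?_, ?_⟩, ?_⟩
    · rw [mem_ofPred_eq, Set.compl_empty]
      exact Filter.univ_mem
    · rw [mem_ofPred_eq, Set.compl_univ]
      exact Ultrafilter.empty_notMem
    · intro B hB C hC
      rw [mem_ofPred_eq, Set.compl_union]
      exact Filter.inter_mem hB hC
    · intro B hB C hCB
      exact Filter.mem_of_superset hB (Set.compl_subset_compl.2 hCB)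
    · rintro I hI ⟨h1, h2⟩
      apply h2
      intro X hX
      rw [mem_ofPred_eq]
      by_contra hXU
      have h3 : X ∈ U := by
        rcases Ultrafilter.mem_or_compl_mem U X with h | h
        · exact h
        · exact absurd h hXU
      have h4 : Xᶜ ∈ I := h1 (by rw [mem_ofPred_eq, compl_compl]; exact h3)
      have h5 := hI.union_mem X hX _ h4
      rw [Set.union_compl_self] at h5
      exact hI.univ_notMem h5

end

end Pool.Agent.U86.MI
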