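import Mathlib

/-!
# Ultrafilters on `ℕ` as unions of strictly increasing chains of filters

`ι` is a linear order in which countable sets are strictly bounded, with an injection into `ℝ`.
There is an ultrafilter on `ℕ` which is the union of a strictly increasing `ι`-sequence of filters.

The proof uses an independent family `A i` (`i : ι`) of subsets of `ℕ` and a maximal filter `K` all
of whose members meet all finite Boolean combinations of the `A i`.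
-/

set_option autoImplicit false

namespace Pool.Agent.U86.MI

open Set

universe u

/-! ### Independent families -/

theorem exists_cover (s t : Finset ℝ) (h : Disjoint s t) :
    ∃ F : Finset (ℚ × ℚ), (∀ x ∈ s, ∃ p ∈ F, (p.1 : ℝ) < x ∧ x < (p.2 : ℝ)) ∧
      ∀ y ∈ t, ∀ p ∈ F, ¬ ((p.1 : ℝ) < y ∧ y < (p.2 : ℝ)) := by
  classical
  have hx : ∀ x ∈ s, ∃ p : ℚ × ℚ, ((p.1 : ℝ) < x ∧ x < (p.2 : ℝ)) ∧
      ∀ y ∈ t, ¬ ((p.1 : ℝ) < y ∧ y < (p.2 : ℝ)) := by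
    intro x hx
    have hxt : x ∉ (t : Set ℝ) := fun h' => Finset.disjoint_left.1 h hx (Finset.mem_coe.1 h')
    have hopen : IsOpen ((t : Set ℝ)ᶜ) := t.finite_toSet.isClosed.isOpen_compl
    obtain ⟨ε, hε, hball⟩ := Metric.isOpen_iff.1 hopen x hxt
    obtain ⟨a, ha1, ha2⟩ := exists_rat_btwn (show x - ε < x by linarith)
    obtain ⟨b, hb1, hb2⟩ := exists_rat_btwn (show x < x + ε by linarith)
    refine ⟨(a, b), ⟨ha2, hb1⟩, fun y hy h' => ?_⟩
    have : y ∈ Metric.ball x ε := by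
      rw [Metric.mem_ball, Real.dist_eq, abs_lt]
      constructor
      · linarith [h'.1]
      · linarith [h'.2]
    exact hball this (Finset.mem_coe.2 hy)
  choose! p hp1 hp2 using hx
  refine ⟨s.image p, fun x hx => ⟨p x, Finset.mem_image_of_mem p hx, hp1 x hx⟩, ?_⟩
  intro y hy q hq
  obtain ⟨x, hx, rfl⟩ := Finset.mem_image.1 hq
  exact hp2 x hx y hy

/-- A family of subsets of `ℕ` indexed by a set of reals, all of whose finite Boolean combinations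
are nonempty. -/
theorem exists_indep {ι : Type u} (r : ι → ℝ) (hr : Function.Injective r) :
    ∃ A : ι → Set ℕ, ∀ s t : Finset ι, Disjoint s t → ∃ n, (∀ i ∈ s, n ∈ A i) ∧ ∀ i ∈ t, n ∉ A i := by
  classical
  obtain ⟨e⟩ : Nonempty (Finset (ℚ × ℚ) ≃ ℕ) := nonempty_equiv_of_countable
  refine ⟨fun i => {n | ∃ p ∈ e.symm n, (p.1 : ℝ) < r i ∧ r i < (p.2 : ℝ)}, fun s t hst => ?_⟩
  have hd : Disjoint (s.image r) (t.image r) := by
    rw [Finset.disjoint_left]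
    intro x hx hx'
    obtain ⟨i, hi, rfl⟩ := Finset.mem_image.1 hx
    obtain ⟨j, hj, hij⟩ := Finset.mem_image.1 hx'
    rw [hr hij] at hj
    exact Finset.disjoint_left.1 hst hi hj
  obtain ⟨F, hF1, hF2⟩ := exists_cover _ _ hd
  refine ⟨e F, fun i hi => ?_, fun i hi => ?_⟩
  · simp only [mem_ofPred_eq, Equiv.symm_apply_apply]
    exact hF1 (r i) (Finset.mem_image_of_mem r hi)
  · simp only [mem_ofPred_eq, Equiv.symm_apply_apply]
    rintro ⟨p, hp, hp'⟩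
    exact hF2 (r i) (Finset.mem_image_of_mem r hi) p hp hp'

/-! ### Conditions and the maximal filter -/

section

variable {ι : Type u}

/-- a finite set of requirements `(i, b)` is consistent -/
def Cons (σ : Finset (ι × Bool)) : Prop := ∀ i, (i, true) ∈ σ → (i, false) ∉ σ

/-- the Boolean combination given by the requirements -/
def cell (A : ι → Set ℕ) (σ : Finset (ι × Bool)) : Set ℕ := {n | ∀ p ∈ σ, (n ∈ A p.1 ↔ p.2 = true)}

/-- independence -/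
def Indep (A : ι → Set ℕ) : Prop :=
  ∀ s t : Finset ι, Disjoint s t → ∃ n, (∀ i ∈ s, n ∈ A i) ∧ ∀ i ∈ t, n ∉ A i

variable {A : ι → Set ℕ}

theorem Cons.cell_nonempty (hA : Indep A) {σ : Finset (ι × Bool)} (h : Cons σ) :
    (cell A σ).Nonempty := by
  classical
  obtain ⟨n, h1, h2⟩ := hA ((σ.filter fun p => p.2 = true).image Prod.fst)
    ((σ.filter fun p => p.2 = false).image Prod.fst) (by
      rw [Finset.disjoint_left]
      intro i hi hi'
      obtain ⟨⟨j, b⟩, hp, rfl⟩ := Finset.mem_image.1 hi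
      obtain ⟨⟨k, c⟩, hq, hk⟩ := Finset.mem_image.1 hi'
      rw [Finset.mem_filter] at hp hq
      obtain ⟨hp1, hp2⟩ := hp
      obtain ⟨hq1, hq2⟩ := hq
      simp only at hp2 hq2 hk hp1 hq1
      subst hp2 hq2 hk
      exact h _ hp1 hq1)
  refine ⟨n, ?_⟩
  rintro ⟨i, b⟩ hp
  cases b
  · simp only [Bool.false_eq_true, iff_false]
    exact h2 i (Finset.mem_image.2 ⟨(i, false), Finset.mem_filter.2 ⟨hp, rfl⟩, rfl⟩)
  · simp only [iff_true]
    exact h1 i (Finset.mem_image.2 ⟨(i, true), Finset.mem_filter.2 ⟨hp, rfl⟩, rfl⟩)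

theorem cons_of_cell {σ : Finset (ι × Bool)} (h : (cell A σ).Nonempty) : Cons σ := by
  obtain ⟨n, hn⟩ := h
  intro i h1 h2
  have h3 := hn _ h1
  have h4 := hn _ h2
  simp only [iff_true] at h3
  simp only [Bool.false_eq_true, iff_false] at h4
  exact h4 h3

theorem Cons.mono {σ τ : Finset (ι × Bool)} (h : Cons τ) (hst : σ ⊆ τ) : Cons σ :=
  fun i h1 h2 => h i (hst h1) (hst h2)

theorem cell_anti {σ τ : Finset (ι × Bool)} (hst : σ ⊆ τ) : cell A τ ⊆ cell A σ :=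
  fun _ hn p hp => hn p (hst hp)

theorem cell_union [DecidableEq (ι × Bool)] (σ τ : Finset (ι × Bool)) :
    cell A (σ ∪ τ) = cell A σ ∩ cell A τ := by
  ext n
  simp only [cell, Finset.mem_union, mem_inter_iff, mem_ofPred_eq]
  constructor
  · intro h
    exact ⟨fun p hp => h p (Or.inl hp), fun p hp => h p (Or.inr hp)⟩
  · rintro ⟨h1, h2⟩ p (hp | hp)
    · exact h1 p hp
    · exact h2 p hp

/-- `K` is a filter of sets all of which meet all cells. -/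
structure Big (A : ι → Set ℕ) (K : Set (Set ℕ)) : Prop where
  univ : Set.univ ∈ K
  inter : ∀ B ∈ K, ∀ C ∈ K, B ∩ C ∈ K
  mono : ∀ B ∈ K, ∀ C, B ⊆ C → C ∈ K
  meets : ∀ B ∈ K, ∀ σ : Finset (ι × Bool), Cons σ → (B ∩ cell A σ).Nonempty

theorem exists_maximal_big (hA : Indep A) :
    ∃ K, Big A K ∧ ∀ K', Big A K' → K ⊆ K' → K' ⊆ K := by
  have h0 : Big A {Set.univ} := by
    refine ⟨rfl, ?_, ?_, ?_⟩
    · rintro B rfl C rfl
      simp
    · rintro B rfl C hC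
      exact Set.mem_singleton_iff.2 (Set.univ_subset_iff.1 hC)
    · rintro B rfl σ hσ
      rw [Set.univ_inter]
      exact hσ.cell_nonempty hA
  have hch : ∀ c ⊆ {K | Big A K}, IsChain (· ⊆ ·) c → c.Nonempty →
      ∃ ub ∈ {K | Big A K}, ∀ s ∈ c, s ⊆ ub := by
    intro c hc hchain hne
    refine ⟨⋃₀ c, ?_, fun s hs => subset_sUnion_of_mem hs⟩
    refine ⟨?_, ?_, ?_, ?_⟩
    · obtain ⟨K, hK⟩ := hne
      exact ⟨K, hK, (hc hK).univ⟩
    · rintro B ⟨K1, hK1, hB⟩ C ⟨K2, hK2, hC⟩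
      rcases hchain.total hK1 hK2 with h | h
      · exact ⟨K2, hK2, (hc hK2).inter B (h hB) C hC⟩
      · exact ⟨K1, hK1, (hc hK1).inter B hB C (h hC)⟩
    · rintro B ⟨K1, hK1, hB⟩ C hBC
      exact ⟨K1, hK1, (hc hK1).mono B hB C hBC⟩
    · rintro B ⟨K1, hK1, hB⟩ σ hσ
      exact (hc hK1).meets B hB σ hσ
  obtain ⟨m, -, hm⟩ := zorn_subset_nonempty {K | Big A K} hch _ h0
  exact ⟨m, hm.1, fun K' hK' hle => hm.2 hK' hle⟩

/-- A maximal big filter. -/
structure MaxBig (A : ι → Set ℕ) (K : Set (Set ℕ)) : Prop extends Big A K where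
  max : ∀ K', Big A K' → K ⊆ K' → K' ⊆ K

theorem MaxBig.mem_of {K : Set (Set ℕ)} (hK : MaxBig A K) (X : Set ℕ)
    (hX : ∀ B ∈ K, ∀ σ : Finset (ι × Bool), Cons σ → (X ∩ B ∩ cell A σ).Nonempty) : X ∈ K := by
  have hbig : Big A {C | ∃ B ∈ K, X ∩ B ⊆ C} := by
    refine ⟨⟨_, hK.univ, Set.subset_univ _⟩, ?_, ?_, ?_⟩
    · rintro C ⟨B, hB, hBC⟩ C' ⟨B', hB', hBC'⟩
      refine ⟨B ∩ B', hK.inter B hB B' hB', ?_⟩
      rintro x ⟨hx1, hx2, hx3⟩
      exact ⟨hBC ⟨hx1, hx2⟩, hBC' ⟨hx1, hx3⟩⟩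
    · rintro C ⟨B, hB, hBC⟩ C' hCC'
      exact ⟨B, hB, hBC.trans hCC'⟩
    · rintro C ⟨B, hB, hBC⟩ σ hσ
      obtain ⟨n, hn1, hn2⟩ := hX B hB σ hσ
      exact ⟨n, hBC hn1, hn2⟩
  refine hK.max _ hbig ?_ ⟨_, hK.univ, Set.inter_subset_left⟩
  intro B hB
  exact ⟨B, hB, Set.inter_subset_right⟩

/-- The condition `τ` forces `X`. -/
def Forces (A : ι → Set ℕ) (K : Set (Set ℕ)) (τ : Finset (ι × Bool)) (X : Set ℕ) : Prop :=
  ∃ B ∈ K, B ∩ cell A τ ⊆ X

/-- The condition `τ` decides `X`. -/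
def Dec (A : ι → Set ℕ) (K : Set (Set ℕ)) (τ : Finset (ι × Bool)) (X : Set ℕ) : Prop :=
  Forces A K τ X ∨ Forces A K τ Xᶜ

theorem Forces.mono {K : Set (Set ℕ)} {σ τ : Finset (ι × Bool)} {X : Set ℕ}
    (h : Forces A K σ X) (hst : σ ⊆ τ) : Forces A K τ X := by
  obtain ⟨B, hB, h⟩ := h
  exact ⟨B, hB, (Set.inter_subset_inter_right B (cell_anti hst)).trans h⟩

theorem Dec.mono {K : Set (Set ℕ)} {σ τ : Finset (ι × Bool)} {X : Set ℕ}
    (h : Dec A K σ X) (hst : σ ⊆ τ) : Dec A K τ X := by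
  rcases h with h | h
  · exact Or.inl (h.mono hst)
  · exact Or.inr (h.mono hst)

theorem MaxBig.dec_dense {K : Set (Set ℕ)} (hK : MaxBig A K) (X : Set ℕ)
    (σ : Finset (ι × Bool)) (hσ : Cons σ) : ∃ τ, σ ⊆ τ ∧ Cons τ ∧ Dec A K τ X := by
  classical
  by_cases h : ∃ τ, σ ⊆ τ ∧ Cons τ ∧ Forces A K τ X
  · obtain ⟨τ, h1, h2, h3⟩ := h
    exact ⟨τ, h1, h2, Or.inl h3⟩
  push Not at h
  refine ⟨σ, subset_rfl, hσ, Or.inr ⟨Xᶜ ∪ (cell A σ)ᶜ, ?_, ?_⟩⟩
  · refine hK.mem_of _ fun B hB ρ hρ => ?_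
    by_cases hc : Cons (σ ∪ ρ)
    · have h1 := h (σ ∪ ρ) Finset.subset_union_left hc
      have h2 : ¬ (B ∩ cell A (σ ∪ ρ) ⊆ X) := fun h' => h1 ⟨B, hB, h'⟩
      rw [Set.not_subset] at h2
      obtain ⟨n, ⟨hn1, hn2⟩, hn3⟩ := h2
      rw [cell_union] at hn2
      exact ⟨n, ⟨Or.inl hn3, hn1⟩, hn2.2⟩
    · obtain ⟨n, hn1, hn2⟩ := hK.meets B hB ρ hρ
      refine ⟨n, ⟨Or.inr fun h' => hc ?_, hn1⟩, hn2⟩
      refine cons_of_cell (A := A) ⟨n, ?_⟩
      rw [cell_union]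
      exact ⟨h', hn2⟩
  · rintro n ⟨hn1, hn2⟩
    rcases hn1 with h' | h'
    · exact h'
    · exact absurd hn2 h'

/-- Countably many conditions deciding `X` are predense. -/
theorem MaxBig.exists_countable {K : Set (Set ℕ)} (hA : Indep A) (hK : MaxBig A K) (X : Set ℕ) :
    ∃ T : Set (Finset (ι × Bool)), T.Countable ∧ (∀ τ ∈ T, Dec A K τ X) ∧
      ∀ σ : Finset (ι × Bool), Cons σ → ∃ τ ∈ T, (cell A σ ∩ cell A τ).Nonempty := by
  classical
  let S : Set (Set (Finset (ι × Bool))) :=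
    {T | (∀ τ ∈ T, Cons τ ∧ Dec A K τ X) ∧ T.PairwiseDisjoint (cell A)}
  obtain ⟨T, hT⟩ := zorn_subset S (fun c hc hchain => by
    refine ⟨⋃₀ c, ⟨?_, ?_⟩, fun s hs => subset_sUnion_of_mem hs⟩
    · rintro τ ⟨T, hT, hτ⟩
      exact (hc hT).1 τ hτ
    · rintro τ ⟨T1, hT1, hτ⟩ τ' ⟨T2, hT2, hτ'⟩ hne
      rcases hchain.total hT1 hT2 with h | h
      · exact (hc hT2).2 (h hτ) hτ' hne
      · exact (hc hT1).2 hτ (h hτ') hne)
  have hTS : T ∈ S := hT.1
  refine ⟨T, ?_, fun τ hτ => (hTS.1 τ hτ).2, fun σ hσ => ?_⟩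
  · refine hTS.2.countable_of_nonempty_interior fun τ hτ => ?_
    rw [(isOpen_discrete _).interior_eq]
    exact (hTS.1 τ hτ).1.cell_nonempty hA
  · obtain ⟨τ, h1, h2, h3⟩ := hK.dec_dense X σ hσ
    by_contra hcon
    push Not at hcon
    have hdis : ∀ τ' ∈ T, cell A τ ∩ cell A τ' = ∅ := by
      intro τ' hτ'
      have := hcon τ' hτ'
      exact Set.eq_empty_of_subset_empty (this ▸ Set.inter_subset_inter_left _ (cell_anti h1))
    have hmem : insert τ T ∈ S := by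
      refine ⟨?_, ?_⟩
      · rintro τ' (rfl | hτ')
        · exact ⟨h2, h3⟩
        · exact hTS.1 τ' hτ'
      · rw [Set.pairwiseDisjoint_insert]
        exact ⟨hTS.2, fun τ' hτ' _ => Set.disjoint_iff_inter_eq_empty.2 (hdis τ' hτ')⟩
    have hτT : τ ∈ T := hT.2 hmem (Set.subset_insert _ _) (Set.mem_insert _ _)
    have h4 := hdis τ hτT
    rw [Set.inter_self] at h4
    exact (h2.cell_nonempty hA).ne_empty h4

end

end Pool.Agent.U86.MI
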